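import Pool.Agent.Lib.MP_dadc30_coR.D.St

set_option linter.all false

namespace Dadc30.Rec.D

open Dadc30.Rec

theorem r28 : run v0 K 4 120 S28 = some S29 := by decide +kernel

end Dadc30.Rec.D
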