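import Pool.Agent.Lib.MP_dadc30_coR.D.R0
import Pool.Agent.Lib.MP_dadc30_coR.D.R1
import Pool.Agent.Lib.MP_dadc30_coR.D.R2
import Pool.Agent.Lib.MP_dadc30_coR.D.R3
import Pool.Agent.Lib.MP_dadc30_coR.D.R4
import Pool.Agent.Lib.MP_dadc30_coR.D.R5
import Pool.Agent.Lib.MP_dadc30_coR.D.R6
import Pool.Agent.Lib.MP_dadc30_coR.D.R7
import Pool.Agent.Lib.MP_dadc30_coR.D.R8
import Pool.Agent.Lib.MP_dadc30_coR.D.R9
import Pool.Agent.Lib.MP_dadc30_coR.D.R10
import Pool.Agent.Lib.MP_dadc30_coR.D.R11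
import Pool.Agent.Lib.MP_dadc30_coR.D.R12
import Pool.Agent.Lib.MP_dadc30_coR.D.R13
import Pool.Agent.Lib.MP_dadc30_coR.D.R14
import Pool.Agent.Lib.MP_dadc30_coR.D.R15
import Pool.Agent.Lib.MP_dadc30_coR.D.R16
import Pool.Agent.Lib.MP_dadc30_coR.D.R17
import Pool.Agent.Lib.MP_dadc30_coR.D.R18
import Pool.Agent.Lib.MP_dadc30_coR.D.R19
import Pool.Agent.Lib.MP_dadc30_coR.D.R20
import Pool.Agent.Lib.MP_dadc30_coR.D.R21
import Pool.Agent.Lib.MP_dadc30_coR.D.R22
import Pool.Agent.Lib.MP_dadc30_coR.D.R23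
import Pool.Agent.Lib.MP_dadc30_coR.D.R24
import Pool.Agent.Lib.MP_dadc30_coR.D.R25
import Pool.Agent.Lib.MP_dadc30_coR.D.R26
import Pool.Agent.Lib.MP_dadc30_coR.D.R27
import Pool.Agent.Lib.MP_dadc30_coR.D.R28
import Pool.Agent.Lib.MP_dadc30_coR.D.R29
import Pool.Agent.Lib.MP_dadc30_coR.D.R30
import Pool.Agent.Lib.MP_dadc30_coR.D.R31
import Pool.Agent.Lib.MP_dadc30_coR.D.R32
import Pool.Agent.Lib.MP_dadc30_coR.D.R33
import Pool.Agent.Lib.MP_dadc30_coR.D.R34
import Pool.Agent.Lib.MP_dadc30_coR.D.R35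
import Pool.Agent.Lib.MP_dadc30_coR.D.R36
import Pool.Agent.Lib.MP_dadc30_coR.D.R37
import Pool.Agent.Lib.MP_dadc30_coR.D.R38
import Pool.Agent.Lib.MP_dadc30_coR.D.R39
import Pool.Agent.Lib.MP_dadc30_coR.D.R40
import Pool.Agent.Lib.MP_dadc30_coR.D.R41
import Pool.Agent.Lib.MP_dadc30_coR.D.R42
import Pool.Agent.Lib.MP_dadc30_coR.D.R43
import Pool.Agent.Lib.MP_dadc30_coR.D.R44
import Pool.Agent.Lib.MP_dadc30_coR.D.R45
import Pool.Agent.Lib.MP_dadc30_coR.D.R46
import Pool.Agent.Lib.MP_dadc30_coR.D.R47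
import Pool.Agent.Lib.MP_dadc30_coR.D.R48
import Pool.Agent.Lib.MP_dadc30_coR.D.R49
import Pool.Agent.Lib.MP_dadc30_coR.D.R50
import Pool.Agent.Lib.MP_dadc30_coR.D.R51
import Pool.Agent.Lib.MP_dadc30_coR.D.R52
import Pool.Agent.Lib.MP_dadc30_coR.D.R53
import Pool.Agent.Lib.MP_dadc30_coR.D.R54
import Pool.Agent.Lib.MP_dadc30_coR.D.R55
import Pool.Agent.Lib.MP_dadc30_coR.D.R56
import Pool.Agent.Lib.MP_dadc30_coR.D.R57
import Pool.Agent.Lib.MP_dadc30_coR.D.R58
import Pool.Agent.Lib.MP_dadc30_coR.D.R59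
import Pool.Agent.Lib.MP_dadc30_coR.D.R60
import Pool.Agent.Lib.MP_dadc30_coR.D.R61
import Pool.Agent.Lib.MP_dadc30_coR.D.R62
import Pool.Agent.Lib.MP_dadc30_coR.D.R63
import Pool.Agent.Lib.MP_dadc30_coR.D.R64
import Pool.Agent.Lib.MP_dadc30_coR.D.R65
import Pool.Agent.Lib.MP_dadc30_coR.D.R66
import Pool.Agent.Lib.MP_dadc30_coR.D.R67
import Pool.Agent.Lib.MP_dadc30_coR.D.R68
import Pool.Agent.Lib.MP_dadc30_coR.D.R69
import Pool.Agent.Lib.MP_dadc30_coR.D.R70
import Pool.Agent.Lib.MP_dadc30_coR.D.R71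
import Pool.Agent.Lib.MP_dadc30_coR.D.R72
import Pool.Agent.Lib.MP_dadc30_coR.D.R73
import Pool.Agent.Lib.MP_dadc30_coR.D.R74
import Pool.Agent.Lib.MP_dadc30_coR.D.R75
import Pool.Agent.Lib.MP_dadc30_coR.D.R76
import Pool.Agent.Lib.MP_dadc30_coR.D.R77
import Pool.Agent.Lib.MP_dadc30_coR.D.R78
import Pool.Agent.Lib.MP_dadc30_coR.D.R79
import Pool.Agent.Lib.MP_dadc30_coR.D.R80
import Pool.Agent.Lib.MP_dadc30_coR.D.R81
import Pool.Agent.Lib.MP_dadc30_coR.D.R82
import Pool.Agent.Lib.MP_dadc30_coR.D.R83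
import Pool.Agent.Lib.MP_dadc30_coR.D.R84
import Pool.Agent.Lib.MP_dadc30_coR.D.R85
import Pool.Agent.Lib.MP_dadc30_coR.D.R86
import Pool.Agent.Lib.MP_dadc30_coR.D.R87
import Pool.Agent.Lib.MP_dadc30_coR.D.R88
import Pool.Agent.Lib.MP_dadc30_coR.D.R89
import Pool.Agent.Lib.MP_dadc30_coR.D.R90
import Pool.Agent.Lib.MP_dadc30_coR.D.R91
import Pool.Agent.Lib.MP_dadc30_coR.D.R92
import Pool.Agent.Lib.MP_dadc30_coR.D.R93
import Pool.Agent.Lib.MP_dadc30_coR.D.R94
import Pool.Agent.Lib.MP_dadc30_coR.D.R95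
import Pool.Agent.Lib.MP_dadc30_coR.D.R96
import Pool.Agent.Lib.MP_dadc30_coR.D.R97
import Pool.Agent.Lib.MP_dadc30_coR.D.R98
import Pool.Agent.Lib.MP_dadc30_coR.D.R99
import Pool.Agent.Lib.MP_dadc30_coR.D.R100
import Pool.Agent.Lib.MP_dadc30_coR.D.R101
import Pool.Agent.Lib.MP_dadc30_coR.D.R102
import Pool.Agent.Lib.MP_dadc30_coR.D.R103
import Pool.Agent.Lib.MP_dadc30_coR.D.R104
import Pool.Agent.Lib.MP_dadc30_coR.D.R105
import Pool.Agent.Lib.MP_dadc30_coR.D.R106
import Pool.Agent.Lib.MP_dadc30_coR.D.R107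
import Pool.Agent.Lib.MP_dadc30_coR.D.R108
import Pool.Agent.Lib.MP_dadc30_coR.D.R109
import Pool.Agent.Lib.MP_dadc30_coR.D.R110
import Pool.Agent.Lib.MP_dadc30_coR.D.R111
import Pool.Agent.Lib.MP_dadc30_coR.D.R112
import Pool.Agent.Lib.MP_dadc30_coR.D.R113
import Pool.Agent.Lib.MP_dadc30_coR.D.R114
import Pool.Agent.Lib.MP_dadc30_coR.D.R115
import Pool.Agent.Lib.MP_dadc30_coR.D.R116
import Pool.Agent.Lib.MP_dadc30_coR.D.R117
import Pool.Agent.Lib.MP_dadc30_coR.D.R118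
import Pool.Agent.Lib.MP_dadc30_coR.D.R119
import Pool.Agent.Lib.MP_dadc30_coR.D.R120
import Pool.Agent.Lib.MP_dadc30_coR.D.R121
import Pool.Agent.Lib.MP_dadc30_coR.D.R122
import Pool.Agent.Lib.MP_dadc30_coR.D.R123
import Pool.Agent.Lib.MP_dadc30_coR.D.R124
import Pool.Agent.Lib.MP_dadc30_coR.D.R125
import Pool.Agent.Lib.MP_dadc30_coR.D.R126
import Pool.Agent.Lib.MP_dadc30_coR.D.R127
import Pool.Agent.Lib.MP_dadc30_coR.D.R128
import Pool.Agent.Lib.MP_dadc30_coR.D.R129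
import Pool.Agent.Lib.MP_dadc30_coR.D.R130
import Pool.Agent.Lib.MP_dadc30_coR.D.R131
import Pool.Agent.Lib.MP_dadc30_coR.D.R132
import Pool.Agent.Lib.MP_dadc30_coR.D.R133
import Pool.Agent.Lib.MP_dadc30_coR.D.R134
import Pool.Agent.Lib.MP_dadc30_coR.D.R135
import Pool.Agent.Lib.MP_dadc30_coR.D.R136
import Pool.Agent.Lib.MP_dadc30_coR.D.R137
import Pool.Agent.Lib.MP_dadc30_coR.D.R138
import Pool.Agent.Lib.MP_dadc30_coR.D.R139
import Pool.Agent.Lib.MP_dadc30_coR.D.R140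
import Pool.Agent.Lib.MP_dadc30_coR.D.R141
import Pool.Agent.Lib.MP_dadc30_coR.D.R142
import Pool.Agent.Lib.MP_dadc30_coR.D.R143
import Pool.Agent.Lib.MP_dadc30_coR.D.R144
import Pool.Agent.Lib.MP_dadc30_coR.D.R145
import Pool.Agent.Lib.MP_dadc30_coR.D.R146
import Pool.Agent.Lib.MP_dadc30_coR.D.R147
import Pool.Agent.Lib.MP_dadc30_coR.Fin

set_option linter.all false

namespace Dadc30.Rec.D

open Dadc30.Rec

theorem hL : okL K (toQ LT) = true := by decide +kernel

theorem hT : okT v0 LT = true := by decide +kernel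

theorem hI : ini v0 K (LL (toQ LT)) = some S0 := by decide +kernel

theorem i0 : Inv v0 (toQ LT) 8 S0 := inv_start iniStmt chk1Stmt jDerStmt jOdeStmt jTayStmt hL hI

theorem i1 : Inv v0 (toQ LT) (8 + 4) S1 :=
  inv_step runStmt stepStmt chk1Stmt jDerStmt jOdeStmt jEnergyStmt jTayStmt hL i0 (by norm_num)
    (by norm_num) r0

theorem i2 : Inv v0 (toQ LT) (12 + 4) S2 :=
  inv_step runStmt stepStmt chk1Stmt jDerStmt jOdeStmt jEnergyStmt jTayStmt hL i1 (by norm_num)
    (by norm_num) r1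

theorem i3 : Inv v0 (toQ LT) (16 + 4) S3 :=
  inv_step runStmt stepStmt chk1Stmt jDerStmt jOdeStmt jEnergyStmt jTayStmt hL i2 (by norm_num)
    (by norm_num) r2

theorem i4 : Inv v0 (toQ LT) (20 + 4) S4 :=
  inv_step runStmt stepStmt chk1Stmt jDerStmt jOdeStmt jEnergyStmt jTayStmt hL i3 (by norm_num)
    (by norm_num) r3

theorem i5 : Inv v0 (toQ LT) (24 + 4) S5 :=
  inv_step runStmt stepStmt chk1Stmt jDerStmt jOdeStmt jEnergyStmt jTayStmt hL i4 (by norm_num)
    (by norm_num) r4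

theorem i6 : Inv v0 (toQ LT) (28 + 4) S6 :=
  inv_step runStmt stepStmt chk1Stmt jDerStmt jOdeStmt jEnergyStmt jTayStmt hL i5 (by norm_num)
    (by norm_num) r5

theorem i7 : Inv v0 (toQ LT) (32 + 4) S7 :=
  inv_step runStmt stepStmt chk1Stmt jDerStmt jOdeStmt jEnergyStmt jTayStmt hL i6 (by norm_num)
    (by norm_num) r6

theorem i8 : Inv v0 (toQ LT) (36 + 4) S8 :=
  inv_step runStmt stepStmt chk1Stmt jDerStmt jOdeStmt jEnergyStmt jTayStmt hL i7 (by norm_num)
    (by norm_num) r7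

theorem i9 : Inv v0 (toQ LT) (40 + 4) S9 :=
  inv_step runStmt stepStmt chk1Stmt jDerStmt jOdeStmt jEnergyStmt jTayStmt hL i8 (by norm_num)
    (by norm_num) r8

theorem i10 : Inv v0 (toQ LT) (44 + 4) S10 :=
  inv_step runStmt stepStmt chk1Stmt jDerStmt jOdeStmt jEnergyStmt jTayStmt hL i9 (by norm_num)
    (by norm_num) r9

theorem i11 : Inv v0 (toQ LT) (48 + 4) S11 :=
  inv_step runStmt stepStmt chk1Stmt jDerStmt jOdeStmt jEnergyStmt jTayStmt hL i10 (by norm_num)
    (by norm_num) r10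

theorem i12 : Inv v0 (toQ LT) (52 + 4) S12 :=
  inv_step runStmt stepStmt chk1Stmt jDerStmt jOdeStmt jEnergyStmt jTayStmt hL i11 (by norm_num)
    (by norm_num) r11

theorem i13 : Inv v0 (toQ LT) (56 + 4) S13 :=
  inv_step runStmt stepStmt chk1Stmt jDerStmt jOdeStmt jEnergyStmt jTayStmt hL i12 (by norm_num)
    (by norm_num) r12

theorem i14 : Inv v0 (toQ LT) (60 + 4) S14 :=
  inv_step runStmt stepStmt chk1Stmt jDerStmt jOdeStmt jEnergyStmt jTayStmt hL i13 (by norm_num)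
    (by norm_num) r13

theorem i15 : Inv v0 (toQ LT) (64 + 4) S15 :=
  inv_step runStmt stepStmt chk1Stmt jDerStmt jOdeStmt jEnergyStmt jTayStmt hL i14 (by norm_num)
    (by norm_num) r14

theorem i16 : Inv v0 (toQ LT) (68 + 4) S16 :=
  inv_step runStmt stepStmt chk1Stmt jDerStmt jOdeStmt jEnergyStmt jTayStmt hL i15 (by norm_num)
    (by norm_num) r15

theorem i17 : Inv v0 (toQ LT) (72 + 4) S17 :=
  inv_step runStmt stepStmt chk1Stmt jDerStmt jOdeStmt jEnergyStmt jTayStmt hL i16 (by norm_num)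
    (by norm_num) r16

theorem i18 : Inv v0 (toQ LT) (76 + 4) S18 :=
  inv_step runStmt stepStmt chk1Stmt jDerStmt jOdeStmt jEnergyStmt jTayStmt hL i17 (by norm_num)
    (by norm_num) r17

theorem i19 : Inv v0 (toQ LT) (80 + 4) S19 :=
  inv_step runStmt stepStmt chk1Stmt jDerStmt jOdeStmt jEnergyStmt jTayStmt hL i18 (by norm_num)
    (by norm_num) r18

theorem i20 : Inv v0 (toQ LT) (84 + 4) S20 :=
  inv_step runStmt stepStmt chk1Stmt jDerStmt jOdeStmt jEnergyStmt jTayStmt hL i19 (by norm_num)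
    (by norm_num) r19

theorem i21 : Inv v0 (toQ LT) (88 + 4) S21 :=
  inv_step runStmt stepStmt chk1Stmt jDerStmt jOdeStmt jEnergyStmt jTayStmt hL i20 (by norm_num)
    (by norm_num) r20

theorem i22 : Inv v0 (toQ LT) (92 + 4) S22 :=
  inv_step runStmt stepStmt chk1Stmt jDerStmt jOdeStmt jEnergyStmt jTayStmt hL i21 (by norm_num)
    (by norm_num) r21

theorem i23 : Inv v0 (toQ LT) (96 + 4) S23 :=
  inv_step runStmt stepStmt chk1Stmt jDerStmt jOdeStmt jEnergyStmt jTayStmt hL i22 (by norm_num)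
    (by norm_num) r22

theorem i24 : Inv v0 (toQ LT) (100 + 4) S24 :=
  inv_step runStmt stepStmt chk1Stmt jDerStmt jOdeStmt jEnergyStmt jTayStmt hL i23 (by norm_num)
    (by norm_num) r23

theorem i25 : Inv v0 (toQ LT) (104 + 4) S25 :=
  inv_step runStmt stepStmt chk1Stmt jDerStmt jOdeStmt jEnergyStmt jTayStmt hL i24 (by norm_num)
    (by norm_num) r24

theorem i26 : Inv v0 (toQ LT) (108 + 4) S26 :=
  inv_step runStmt stepStmt chk1Stmt jDerStmt jOdeStmt jEnergyStmt jTayStmt hL i25 (by norm_num)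
    (by norm_num) r25

theorem i27 : Inv v0 (toQ LT) (112 + 4) S27 :=
  inv_step runStmt stepStmt chk1Stmt jDerStmt jOdeStmt jEnergyStmt jTayStmt hL i26 (by norm_num)
    (by norm_num) r26

theorem i28 : Inv v0 (toQ LT) (116 + 4) S28 :=
  inv_step runStmt stepStmt chk1Stmt jDerStmt jOdeStmt jEnergyStmt jTayStmt hL i27 (by norm_num)
    (by norm_num) r27

theorem i29 : Inv v0 (toQ LT) (120 + 4) S29 :=
  inv_step runStmt stepStmt chk1Stmt jDerStmt jOdeStmt jEnergyStmt jTayStmt hL i28 (by norm_num)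
    (by norm_num) r28

theorem i30 : Inv v0 (toQ LT) (124 + 4) S30 :=
  inv_step runStmt stepStmt chk1Stmt jDerStmt jOdeStmt jEnergyStmt jTayStmt hL i29 (by norm_num)
    (by norm_num) r29

theorem i31 : Inv v0 (toQ LT) (128 + 4) S31 :=
  inv_step runStmt stepStmt chk1Stmt jDerStmt jOdeStmt jEnergyStmt jTayStmt hL i30 (by norm_num)
    (by norm_num) r30

theorem i32 : Inv v0 (toQ LT) (132 + 4) S32 :=
  inv_step runStmt stepStmt chk1Stmt jDerStmt jOdeStmt jEnergyStmt jTayStmt hL i31 (by norm_num)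
    (by norm_num) r31

theorem i33 : Inv v0 (toQ LT) (136 + 4) S33 :=
  inv_step runStmt stepStmt chk1Stmt jDerStmt jOdeStmt jEnergyStmt jTayStmt hL i32 (by norm_num)
    (by norm_num) r32

theorem i34 : Inv v0 (toQ LT) (140 + 4) S34 :=
  inv_step runStmt stepStmt chk1Stmt jDerStmt jOdeStmt jEnergyStmt jTayStmt hL i33 (by norm_num)
    (by norm_num) r33

theorem i35 : Inv v0 (toQ LT) (144 + 4) S35 :=
  inv_step runStmt stepStmt chk1Stmt jDerStmt jOdeStmt jEnergyStmt jTayStmt hL i34 (by norm_num)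
    (by norm_num) r34

theorem i36 : Inv v0 (toQ LT) (148 + 4) S36 :=
  inv_step runStmt stepStmt chk1Stmt jDerStmt jOdeStmt jEnergyStmt jTayStmt hL i35 (by norm_num)
    (by norm_num) r35

theorem i37 : Inv v0 (toQ LT) (152 + 4) S37 :=
  inv_step runStmt stepStmt chk1Stmt jDerStmt jOdeStmt jEnergyStmt jTayStmt hL i36 (by norm_num)
    (by norm_num) r36

theorem i38 : Inv v0 (toQ LT) (156 + 4) S38 :=
  inv_step runStmt stepStmt chk1Stmt jDerStmt jOdeStmt jEnergyStmt jTayStmt hL i37 (by norm_num)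
    (by norm_num) r37

theorem i39 : Inv v0 (toQ LT) (160 + 4) S39 :=
  inv_step runStmt stepStmt chk1Stmt jDerStmt jOdeStmt jEnergyStmt jTayStmt hL i38 (by norm_num)
    (by norm_num) r38

theorem i40 : Inv v0 (toQ LT) (164 + 4) S40 :=
  inv_step runStmt stepStmt chk1Stmt jDerStmt jOdeStmt jEnergyStmt jTayStmt hL i39 (by norm_num)
    (by norm_num) r39

theorem i41 : Inv v0 (toQ LT) (168 + 4) S41 :=
  inv_step runStmt stepStmt chk1Stmt jDerStmt jOdeStmt jEnergyStmt jTayStmt hL i40 (by norm_num)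
    (by norm_num) r40

theorem i42 : Inv v0 (toQ LT) (172 + 4) S42 :=
  inv_step runStmt stepStmt chk1Stmt jDerStmt jOdeStmt jEnergyStmt jTayStmt hL i41 (by norm_num)
    (by norm_num) r41

theorem i43 : Inv v0 (toQ LT) (176 + 4) S43 :=
  inv_step runStmt stepStmt chk1Stmt jDerStmt jOdeStmt jEnergyStmt jTayStmt hL i42 (by norm_num)
    (by norm_num) r42

theorem i44 : Inv v0 (toQ LT) (180 + 4) S44 :=
  inv_step runStmt stepStmt chk1Stmt jDerStmt jOdeStmt jEnergyStmt jTayStmt hL i43 (by norm_num)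
    (by norm_num) r43

theorem i45 : Inv v0 (toQ LT) (184 + 4) S45 :=
  inv_step runStmt stepStmt chk1Stmt jDerStmt jOdeStmt jEnergyStmt jTayStmt hL i44 (by norm_num)
    (by norm_num) r44

theorem i46 : Inv v0 (toQ LT) (188 + 4) S46 :=
  inv_step runStmt stepStmt chk1Stmt jDerStmt jOdeStmt jEnergyStmt jTayStmt hL i45 (by norm_num)
    (by norm_num) r45

theorem i47 : Inv v0 (toQ LT) (192 + 4) S47 :=
  inv_step runStmt stepStmt chk1Stmt jDerStmt jOdeStmt jEnergyStmt jTayStmt hL i46 (by norm_num)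
    (by norm_num) r46

theorem i48 : Inv v0 (toQ LT) (196 + 4) S48 :=
  inv_step runStmt stepStmt chk1Stmt jDerStmt jOdeStmt jEnergyStmt jTayStmt hL i47 (by norm_num)
    (by norm_num) r47

theorem i49 : Inv v0 (toQ LT) (200 + 4) S49 :=
  inv_step runStmt stepStmt chk1Stmt jDerStmt jOdeStmt jEnergyStmt jTayStmt hL i48 (by norm_num)
    (by norm_num) r48

theorem i50 : Inv v0 (toQ LT) (204 + 4) S50 :=
  inv_step runStmt stepStmt chk1Stmt jDerStmt jOdeStmt jEnergyStmt jTayStmt hL i49 (by norm_num)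
    (by norm_num) r49

theorem i51 : Inv v0 (toQ LT) (208 + 4) S51 :=
  inv_step runStmt stepStmt chk1Stmt jDerStmt jOdeStmt jEnergyStmt jTayStmt hL i50 (by norm_num)
    (by norm_num) r50

theorem i52 : Inv v0 (toQ LT) (212 + 4) S52 :=
  inv_step runStmt stepStmt chk1Stmt jDerStmt jOdeStmt jEnergyStmt jTayStmt hL i51 (by norm_num)
    (by norm_num) r51

theorem i53 : Inv v0 (toQ LT) (216 + 4) S53 :=
  inv_step runStmt stepStmt chk1Stmt jDerStmt jOdeStmt jEnergyStmt jTayStmt hL i52 (by norm_num)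
    (by norm_num) r52

theorem i54 : Inv v0 (toQ LT) (220 + 4) S54 :=
  inv_step runStmt stepStmt chk1Stmt jDerStmt jOdeStmt jEnergyStmt jTayStmt hL i53 (by norm_num)
    (by norm_num) r53

theorem i55 : Inv v0 (toQ LT) (224 + 4) S55 :=
  inv_step runStmt stepStmt chk1Stmt jDerStmt jOdeStmt jEnergyStmt jTayStmt hL i54 (by norm_num)
    (by norm_num) r54

theorem i56 : Inv v0 (toQ LT) (228 + 4) S56 :=
  inv_step runStmt stepStmt chk1Stmt jDerStmt jOdeStmt jEnergyStmt jTayStmt hL i55 (by norm_num)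
    (by norm_num) r55

theorem i57 : Inv v0 (toQ LT) (232 + 4) S57 :=
  inv_step runStmt stepStmt chk1Stmt jDerStmt jOdeStmt jEnergyStmt jTayStmt hL i56 (by norm_num)
    (by norm_num) r56

theorem i58 : Inv v0 (toQ LT) (236 + 4) S58 :=
  inv_step runStmt stepStmt chk1Stmt jDerStmt jOdeStmt jEnergyStmt jTayStmt hL i57 (by norm_num)
    (by norm_num) r57

theorem i59 : Inv v0 (toQ LT) (240 + 4) S59 :=
  inv_step runStmt stepStmt chk1Stmt jDerStmt jOdeStmt jEnergyStmt jTayStmt hL i58 (by norm_num)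
    (by norm_num) r58

theorem i60 : Inv v0 (toQ LT) (244 + 4) S60 :=
  inv_step runStmt stepStmt chk1Stmt jDerStmt jOdeStmt jEnergyStmt jTayStmt hL i59 (by norm_num)
    (by norm_num) r59

theorem i61 : Inv v0 (toQ LT) (248 + 4) S61 :=
  inv_step runStmt stepStmt chk1Stmt jDerStmt jOdeStmt jEnergyStmt jTayStmt hL i60 (by norm_num)
    (by norm_num) r60

theorem i62 : Inv v0 (toQ LT) (252 + 4) S62 :=
  inv_step runStmt stepStmt chk1Stmt jDerStmt jOdeStmt jEnergyStmt jTayStmt hL i61 (by norm_num)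
    (by norm_num) r61

theorem i63 : Inv v0 (toQ LT) (256 + 4) S63 :=
  inv_step runStmt stepStmt chk1Stmt jDerStmt jOdeStmt jEnergyStmt jTayStmt hL i62 (by norm_num)
    (by norm_num) r62

theorem i64 : Inv v0 (toQ LT) (260 + 4) S64 :=
  inv_step runStmt stepStmt chk1Stmt jDerStmt jOdeStmt jEnergyStmt jTayStmt hL i63 (by norm_num)
    (by norm_num) r63

theorem i65 : Inv v0 (toQ LT) (264 + 4) S65 :=
  inv_step runStmt stepStmt chk1Stmt jDerStmt jOdeStmt jEnergyStmt jTayStmt hL i64 (by norm_num)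
    (by norm_num) r64

theorem i66 : Inv v0 (toQ LT) (268 + 4) S66 :=
  inv_step runStmt stepStmt chk1Stmt jDerStmt jOdeStmt jEnergyStmt jTayStmt hL i65 (by norm_num)
    (by norm_num) r65

theorem i67 : Inv v0 (toQ LT) (272 + 4) S67 :=
  inv_step runStmt stepStmt chk1Stmt jDerStmt jOdeStmt jEnergyStmt jTayStmt hL i66 (by norm_num)
    (by norm_num) r66

theorem i68 : Inv v0 (toQ LT) (276 + 4) S68 :=
  inv_step runStmt stepStmt chk1Stmt jDerStmt jOdeStmt jEnergyStmt jTayStmt hL i67 (by norm_num)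
    (by norm_num) r67

theorem i69 : Inv v0 (toQ LT) (280 + 4) S69 :=
  inv_step runStmt stepStmt chk1Stmt jDerStmt jOdeStmt jEnergyStmt jTayStmt hL i68 (by norm_num)
    (by norm_num) r68

theorem i70 : Inv v0 (toQ LT) (284 + 4) S70 :=
  inv_step runStmt stepStmt chk1Stmt jDerStmt jOdeStmt jEnergyStmt jTayStmt hL i69 (by norm_num)
    (by norm_num) r69

theorem i71 : Inv v0 (toQ LT) (288 + 4) S71 :=
  inv_step runStmt stepStmt chk1Stmt jDerStmt jOdeStmt jEnergyStmt jTayStmt hL i70 (by norm_num)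
    (by norm_num) r70

theorem i72 : Inv v0 (toQ LT) (292 + 4) S72 :=
  inv_step runStmt stepStmt chk1Stmt jDerStmt jOdeStmt jEnergyStmt jTayStmt hL i71 (by norm_num)
    (by norm_num) r71

theorem i73 : Inv v0 (toQ LT) (296 + 4) S73 :=
  inv_step runStmt stepStmt chk1Stmt jDerStmt jOdeStmt jEnergyStmt jTayStmt hL i72 (by norm_num)
    (by norm_num) r72

theorem i74 : Inv v0 (toQ LT) (300 + 4) S74 :=
  inv_step runStmt stepStmt chk1Stmt jDerStmt jOdeStmt jEnergyStmt jTayStmt hL i73 (by norm_num)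
    (by norm_num) r73

theorem i75 : Inv v0 (toQ LT) (304 + 4) S75 :=
  inv_step runStmt stepStmt chk1Stmt jDerStmt jOdeStmt jEnergyStmt jTayStmt hL i74 (by norm_num)
    (by norm_num) r74

theorem i76 : Inv v0 (toQ LT) (308 + 4) S76 :=
  inv_step runStmt stepStmt chk1Stmt jDerStmt jOdeStmt jEnergyStmt jTayStmt hL i75 (by norm_num)
    (by norm_num) r75

theorem i77 : Inv v0 (toQ LT) (312 + 4) S77 :=
  inv_step runStmt stepStmt chk1Stmt jDerStmt jOdeStmt jEnergyStmt jTayStmt hL i76 (by norm_num)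
    (by norm_num) r76

theorem i78 : Inv v0 (toQ LT) (316 + 4) S78 :=
  inv_step runStmt stepStmt chk1Stmt jDerStmt jOdeStmt jEnergyStmt jTayStmt hL i77 (by norm_num)
    (by norm_num) r77

theorem i79 : Inv v0 (toQ LT) (320 + 4) S79 :=
  inv_step runStmt stepStmt chk1Stmt jDerStmt jOdeStmt jEnergyStmt jTayStmt hL i78 (by norm_num)
    (by norm_num) r78

theorem i80 : Inv v0 (toQ LT) (324 + 4) S80 :=
  inv_step runStmt stepStmt chk1Stmt jDerStmt jOdeStmt jEnergyStmt jTayStmt hL i79 (by norm_num)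
    (by norm_num) r79

theorem i81 : Inv v0 (toQ LT) (328 + 4) S81 :=
  inv_step runStmt stepStmt chk1Stmt jDerStmt jOdeStmt jEnergyStmt jTayStmt hL i80 (by norm_num)
    (by norm_num) r80

theorem i82 : Inv v0 (toQ LT) (332 + 4) S82 :=
  inv_step runStmt stepStmt chk1Stmt jDerStmt jOdeStmt jEnergyStmt jTayStmt hL i81 (by norm_num)
    (by norm_num) r81

theorem i83 : Inv v0 (toQ LT) (336 + 4) S83 :=
  inv_step runStmt stepStmt chk1Stmt jDerStmt jOdeStmt jEnergyStmt jTayStmt hL i82 (by norm_num)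
    (by norm_num) r82

theorem i84 : Inv v0 (toQ LT) (340 + 4) S84 :=
  inv_step runStmt stepStmt chk1Stmt jDerStmt jOdeStmt jEnergyStmt jTayStmt hL i83 (by norm_num)
    (by norm_num) r83

theorem i85 : Inv v0 (toQ LT) (344 + 4) S85 :=
  inv_step runStmt stepStmt chk1Stmt jDerStmt jOdeStmt jEnergyStmt jTayStmt hL i84 (by norm_num)
    (by norm_num) r84

theorem i86 : Inv v0 (toQ LT) (348 + 4) S86 :=
  inv_step runStmt stepStmt chk1Stmt jDerStmt jOdeStmt jEnergyStmt jTayStmt hL i85 (by norm_num)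
    (by norm_num) r85

theorem i87 : Inv v0 (toQ LT) (352 + 4) S87 :=
  inv_step runStmt stepStmt chk1Stmt jDerStmt jOdeStmt jEnergyStmt jTayStmt hL i86 (by norm_num)
    (by norm_num) r86

theorem i88 : Inv v0 (toQ LT) (356 + 4) S88 :=
  inv_step runStmt stepStmt chk1Stmt jDerStmt jOdeStmt jEnergyStmt jTayStmt hL i87 (by norm_num)
    (by norm_num) r87

theorem i89 : Inv v0 (toQ LT) (360 + 4) S89 :=
  inv_step runStmt stepStmt chk1Stmt jDerStmt jOdeStmt jEnergyStmt jTayStmt hL i88 (by norm_num)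
    (by norm_num) r88

theorem i90 : Inv v0 (toQ LT) (364 + 4) S90 :=
  inv_step runStmt stepStmt chk1Stmt jDerStmt jOdeStmt jEnergyStmt jTayStmt hL i89 (by norm_num)
    (by norm_num) r89

theorem i91 : Inv v0 (toQ LT) (368 + 4) S91 :=
  inv_step runStmt stepStmt chk1Stmt jDerStmt jOdeStmt jEnergyStmt jTayStmt hL i90 (by norm_num)
    (by norm_num) r90

theorem i92 : Inv v0 (toQ LT) (372 + 4) S92 :=
  inv_step runStmt stepStmt chk1Stmt jDerStmt jOdeStmt jEnergyStmt jTayStmt hL i91 (by norm_num)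
    (by norm_num) r91

theorem i93 : Inv v0 (toQ LT) (376 + 4) S93 :=
  inv_step runStmt stepStmt chk1Stmt jDerStmt jOdeStmt jEnergyStmt jTayStmt hL i92 (by norm_num)
    (by norm_num) r92

theorem i94 : Inv v0 (toQ LT) (380 + 4) S94 :=
  inv_step runStmt stepStmt chk1Stmt jDerStmt jOdeStmt jEnergyStmt jTayStmt hL i93 (by norm_num)
    (by norm_num) r93

theorem i95 : Inv v0 (toQ LT) (384 + 4) S95 :=
  inv_step runStmt stepStmt chk1Stmt jDerStmt jOdeStmt jEnergyStmt jTayStmt hL i94 (by norm_num)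
    (by norm_num) r94

theorem i96 : Inv v0 (toQ LT) (388 + 4) S96 :=
  inv_step runStmt stepStmt chk1Stmt jDerStmt jOdeStmt jEnergyStmt jTayStmt hL i95 (by norm_num)
    (by norm_num) r95

theorem i97 : Inv v0 (toQ LT) (392 + 4) S97 :=
  inv_step runStmt stepStmt chk1Stmt jDerStmt jOdeStmt jEnergyStmt jTayStmt hL i96 (by norm_num)
    (by norm_num) r96

theorem i98 : Inv v0 (toQ LT) (396 + 4) S98 :=
  inv_step runStmt stepStmt chk1Stmt jDerStmt jOdeStmt jEnergyStmt jTayStmt hL i97 (by norm_num)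
    (by norm_num) r97

theorem i99 : Inv v0 (toQ LT) (400 + 4) S99 :=
  inv_step runStmt stepStmt chk1Stmt jDerStmt jOdeStmt jEnergyStmt jTayStmt hL i98 (by norm_num)
    (by norm_num) r98

theorem i100 : Inv v0 (toQ LT) (404 + 4) S100 :=
  inv_step runStmt stepStmt chk1Stmt jDerStmt jOdeStmt jEnergyStmt jTayStmt hL i99 (by norm_num)
    (by norm_num) r99

theorem i101 : Inv v0 (toQ LT) (408 + 4) S101 :=
  inv_step runStmt stepStmt chk1Stmt jDerStmt jOdeStmt jEnergyStmt jTayStmt hL i100 (by norm_num)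
    (by norm_num) r100

theorem i102 : Inv v0 (toQ LT) (412 + 4) S102 :=
  inv_step runStmt stepStmt chk1Stmt jDerStmt jOdeStmt jEnergyStmt jTayStmt hL i101 (by norm_num)
    (by norm_num) r101

theorem i103 : Inv v0 (toQ LT) (416 + 4) S103 :=
  inv_step runStmt stepStmt chk1Stmt jDerStmt jOdeStmt jEnergyStmt jTayStmt hL i102 (by norm_num)
    (by norm_num) r102

theorem i104 : Inv v0 (toQ LT) (420 + 4) S104 :=
  inv_step runStmt stepStmt chk1Stmt jDerStmt jOdeStmt jEnergyStmt jTayStmt hL i103 (by norm_num)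
    (by norm_num) r103

theorem i105 : Inv v0 (toQ LT) (424 + 4) S105 :=
  inv_step runStmt stepStmt chk1Stmt jDerStmt jOdeStmt jEnergyStmt jTayStmt hL i104 (by norm_num)
    (by norm_num) r104

theorem i106 : Inv v0 (toQ LT) (428 + 4) S106 :=
  inv_step runStmt stepStmt chk1Stmt jDerStmt jOdeStmt jEnergyStmt jTayStmt hL i105 (by norm_num)
    (by norm_num) r105

theorem i107 : Inv v0 (toQ LT) (432 + 4) S107 :=
  inv_step runStmt stepStmt chk1Stmt jDerStmt jOdeStmt jEnergyStmt jTayStmt hL i106 (by norm_num)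
    (by norm_num) r106

theorem i108 : Inv v0 (toQ LT) (436 + 4) S108 :=
  inv_step runStmt stepStmt chk1Stmt jDerStmt jOdeStmt jEnergyStmt jTayStmt hL i107 (by norm_num)
    (by norm_num) r107

theorem i109 : Inv v0 (toQ LT) (440 + 4) S109 :=
  inv_step runStmt stepStmt chk1Stmt jDerStmt jOdeStmt jEnergyStmt jTayStmt hL i108 (by norm_num)
    (by norm_num) r108

theorem i110 : Inv v0 (toQ LT) (444 + 4) S110 :=
  inv_step runStmt stepStmt chk1Stmt jDerStmt jOdeStmt jEnergyStmt jTayStmt hL i109 (by norm_num)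
    (by norm_num) r109

theorem i111 : Inv v0 (toQ LT) (448 + 4) S111 :=
  inv_step runStmt stepStmt chk1Stmt jDerStmt jOdeStmt jEnergyStmt jTayStmt hL i110 (by norm_num)
    (by norm_num) r110

theorem i112 : Inv v0 (toQ LT) (452 + 4) S112 :=
  inv_step runStmt stepStmt chk1Stmt jDerStmt jOdeStmt jEnergyStmt jTayStmt hL i111 (by norm_num)
    (by norm_num) r111

theorem i113 : Inv v0 (toQ LT) (456 + 4) S113 :=
  inv_step runStmt stepStmt chk1Stmt jDerStmt jOdeStmt jEnergyStmt jTayStmt hL i112 (by norm_num)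
    (by norm_num) r112

theorem i114 : Inv v0 (toQ LT) (460 + 4) S114 :=
  inv_step runStmt stepStmt chk1Stmt jDerStmt jOdeStmt jEnergyStmt jTayStmt hL i113 (by norm_num)
    (by norm_num) r113

theorem i115 : Inv v0 (toQ LT) (464 + 4) S115 :=
  inv_step runStmt stepStmt chk1Stmt jDerStmt jOdeStmt jEnergyStmt jTayStmt hL i114 (by norm_num)
    (by norm_num) r114

theorem i116 : Inv v0 (toQ LT) (468 + 4) S116 :=
  inv_step runStmt stepStmt chk1Stmt jDerStmt jOdeStmt jEnergyStmt jTayStmt hL i115 (by norm_num)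
    (by norm_num) r115

theorem i117 : Inv v0 (toQ LT) (472 + 4) S117 :=
  inv_step runStmt stepStmt chk1Stmt jDerStmt jOdeStmt jEnergyStmt jTayStmt hL i116 (by norm_num)
    (by norm_num) r116

theorem i118 : Inv v0 (toQ LT) (476 + 4) S118 :=
  inv_step runStmt stepStmt chk1Stmt jDerStmt jOdeStmt jEnergyStmt jTayStmt hL i117 (by norm_num)
    (by norm_num) r117

theorem i119 : Inv v0 (toQ LT) (480 + 4) S119 :=
  inv_step runStmt stepStmt chk1Stmt jDerStmt jOdeStmt jEnergyStmt jTayStmt hL i118 (by norm_num)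
    (by norm_num) r118

theorem i120 : Inv v0 (toQ LT) (484 + 4) S120 :=
  inv_step runStmt stepStmt chk1Stmt jDerStmt jOdeStmt jEnergyStmt jTayStmt hL i119 (by norm_num)
    (by norm_num) r119

theorem i121 : Inv v0 (toQ LT) (488 + 4) S121 :=
  inv_step runStmt stepStmt chk1Stmt jDerStmt jOdeStmt jEnergyStmt jTayStmt hL i120 (by norm_num)
    (by norm_num) r120

theorem i122 : Inv v0 (toQ LT) (492 + 4) S122 :=
  inv_step runStmt stepStmt chk1Stmt jDerStmt jOdeStmt jEnergyStmt jTayStmt hL i121 (by norm_num)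
    (by norm_num) r121

theorem i123 : Inv v0 (toQ LT) (496 + 4) S123 :=
  inv_step runStmt stepStmt chk1Stmt jDerStmt jOdeStmt jEnergyStmt jTayStmt hL i122 (by norm_num)
    (by norm_num) r122

theorem i124 : Inv v0 (toQ LT) (500 + 4) S124 :=
  inv_step runStmt stepStmt chk1Stmt jDerStmt jOdeStmt jEnergyStmt jTayStmt hL i123 (by norm_num)
    (by norm_num) r123

theorem i125 : Inv v0 (toQ LT) (504 + 4) S125 :=
  inv_step runStmt stepStmt chk1Stmt jDerStmt jOdeStmt jEnergyStmt jTayStmt hL i124 (by norm_num)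
    (by norm_num) r124

theorem i126 : Inv v0 (toQ LT) (508 + 4) S126 :=
  inv_step runStmt stepStmt chk1Stmt jDerStmt jOdeStmt jEnergyStmt jTayStmt hL i125 (by norm_num)
    (by norm_num) r125

theorem i127 : Inv v0 (toQ LT) (512 + 4) S127 :=
  inv_step runStmt stepStmt chk1Stmt jDerStmt jOdeStmt jEnergyStmt jTayStmt hL i126 (by norm_num)
    (by norm_num) r126

theorem i128 : Inv v0 (toQ LT) (516 + 4) S128 :=
  inv_step runStmt stepStmt chk1Stmt jDerStmt jOdeStmt jEnergyStmt jTayStmt hL i127 (by norm_num)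
    (by norm_num) r127

theorem i129 : Inv v0 (toQ LT) (520 + 4) S129 :=
  inv_step runStmt stepStmt chk1Stmt jDerStmt jOdeStmt jEnergyStmt jTayStmt hL i128 (by norm_num)
    (by norm_num) r128

theorem i130 : Inv v0 (toQ LT) (524 + 4) S130 :=
  inv_step runStmt stepStmt chk1Stmt jDerStmt jOdeStmt jEnergyStmt jTayStmt hL i129 (by norm_num)
    (by norm_num) r129

theorem i131 : Inv v0 (toQ LT) (528 + 4) S131 :=
  inv_step runStmt stepStmt chk1Stmt jDerStmt jOdeStmt jEnergyStmt jTayStmt hL i130 (by norm_num)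
    (by norm_num) r130

theorem i132 : Inv v0 (toQ LT) (532 + 4) S132 :=
  inv_step runStmt stepStmt chk1Stmt jDerStmt jOdeStmt jEnergyStmt jTayStmt hL i131 (by norm_num)
    (by norm_num) r131

theorem i133 : Inv v0 (toQ LT) (536 + 4) S133 :=
  inv_step runStmt stepStmt chk1Stmt jDerStmt jOdeStmt jEnergyStmt jTayStmt hL i132 (by norm_num)
    (by norm_num) r132

theorem i134 : Inv v0 (toQ LT) (540 + 4) S134 :=
  inv_step runStmt stepStmt chk1Stmt jDerStmt jOdeStmt jEnergyStmt jTayStmt hL i133 (by norm_num)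
    (by norm_num) r133

theorem i135 : Inv v0 (toQ LT) (544 + 4) S135 :=
  inv_step runStmt stepStmt chk1Stmt jDerStmt jOdeStmt jEnergyStmt jTayStmt hL i134 (by norm_num)
    (by norm_num) r134

theorem i136 : Inv v0 (toQ LT) (548 + 4) S136 :=
  inv_step runStmt stepStmt chk1Stmt jDerStmt jOdeStmt jEnergyStmt jTayStmt hL i135 (by norm_num)
    (by norm_num) r135

theorem i137 : Inv v0 (toQ LT) (552 + 4) S137 :=
  inv_step runStmt stepStmt chk1Stmt jDerStmt jOdeStmt jEnergyStmt jTayStmt hL i136 (by norm_num)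
    (by norm_num) r136

theorem i138 : Inv v0 (toQ LT) (556 + 4) S138 :=
  inv_step runStmt stepStmt chk1Stmt jDerStmt jOdeStmt jEnergyStmt jTayStmt hL i137 (by norm_num)
    (by norm_num) r137

theorem i139 : Inv v0 (toQ LT) (560 + 4) S139 :=
  inv_step runStmt stepStmt chk1Stmt jDerStmt jOdeStmt jEnergyStmt jTayStmt hL i138 (by norm_num)
    (by norm_num) r138

theorem i140 : Inv v0 (toQ LT) (564 + 4) S140 :=
  inv_step runStmt stepStmt chk1Stmt jDerStmt jOdeStmt jEnergyStmt jTayStmt hL i139 (by norm_num)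
    (by norm_num) r139

theorem i141 : Inv v0 (toQ LT) (568 + 4) S141 :=
  inv_step runStmt stepStmt chk1Stmt jDerStmt jOdeStmt jEnergyStmt jTayStmt hL i140 (by norm_num)
    (by norm_num) r140

theorem i142 : Inv v0 (toQ LT) (572 + 4) S142 :=
  inv_step runStmt stepStmt chk1Stmt jDerStmt jOdeStmt jEnergyStmt jTayStmt hL i141 (by norm_num)
    (by norm_num) r141

theorem i143 : Inv v0 (toQ LT) (576 + 4) S143 :=
  inv_step runStmt stepStmt chk1Stmt jDerStmt jOdeStmt jEnergyStmt jTayStmt hL i142 (by norm_num)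
    (by norm_num) r142

theorem i144 : Inv v0 (toQ LT) (580 + 4) S144 :=
  inv_step runStmt stepStmt chk1Stmt jDerStmt jOdeStmt jEnergyStmt jTayStmt hL i143 (by norm_num)
    (by norm_num) r143

theorem i145 : Inv v0 (toQ LT) (584 + 4) S145 :=
  inv_step runStmt stepStmt chk1Stmt jDerStmt jOdeStmt jEnergyStmt jTayStmt hL i144 (by norm_num)
    (by norm_num) r144

theorem i146 : Inv v0 (toQ LT) (588 + 4) S146 :=
  inv_step runStmt stepStmt chk1Stmt jDerStmt jOdeStmt jEnergyStmt jTayStmt hL i145 (by norm_num)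
    (by norm_num) r145

theorem i147 : Inv v0 (toQ LT) (592 + 4) S147 :=
  inv_step runStmt stepStmt chk1Stmt jDerStmt jOdeStmt jEnergyStmt jTayStmt hL i146 (by norm_num)
    (by norm_num) r146

theorem i148 : Inv v0 (toQ LT) (596 + 4) S148 :=
  inv_step runStmt stepStmt chk1Stmt jDerStmt jOdeStmt jEnergyStmt jTayStmt hL i147 (by norm_num)
    (by norm_num) r147

theorem inv600 : Inv v0 (toQ LT) 600 S148 := i148

end Dadc30.Rec.D
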